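import Pool.Agent.X247.Mis.Alg

/-!
# The misère domination game on paths and cycles

The closed form of the winner of the misère domination game on every path and on every cycle, and
the polynomial-time algorithm which decides the winner on graphs given by their matrices that are
paths or cycles.
-/

namespace Pool.Agent.Results.MP_56c280_lc.MisereDomination

open Pool.Agent.X247.Mis Pool.Agent.NPC Pool.Agent.H633R2 Pool.Agent.NPC.X247Mis

theorem result :
    (∀ n, 1 ≤ n → (Wins (SimpleGraph.pathGraph n) [] ↔ ¬ (n % 4 = 2 ∨ n = 1 ∨ n = 5))) ∧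
    (∀ n, 3 ≤ n → (Wins (SimpleGraph.cycleGraph n) [] ↔
      n = 4 ∨ n = 8 ∨ (13 ≤ n ∧ n % 4 = 1))) ∧
    ∃ P : List (List Bool) → Prop, InPP P ∧
      ∀ M, IsPathOrCycle (graphOf M) → (P M ↔ Wins (graphOf M) []) :=
  ⟨fun _ hn => wins_path hn, fun _ hn => wins_cycle hn,
    fun M => algB M = true, inPP_of poly_algB fun _ => Iff.rfl, fun _ hM => algB_iff hM⟩

end Pool.Agent.Results.MP_56c280_lc.MisereDomination
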